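import Pool.Agent.U301.PB.Hil
import Pool.Agent.TH377.IG.RegAll

/-!
# Split embedding problems with profinite groups over rational function fields: regular solutions
-/

set_option autoImplicit false

namespace Pool.Agent.U301.PA

open Pool.Agent.H391R2 Pool.Agent.H391R2.T4 Topology IntermediateField
open Pool.Agent.TH15.IGP (Lim)

section stage

variable {Δ : Type} [Group Δ] {G : ℕ → Type} [∀ j, Group (G j)] (a : ∀ j, G j →* Δ)
  (s : ∀ j, Δ →* G j) (m : ℕ → ℕ)

/-- The section of `Q j → Δ`. -/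
def sq (j : ℕ) : Δ →* QQ (G j) := SemidirectProduct.inr.comp (s j)

/-- The action of `Δ` on the kernel. -/
def cj (j : ℕ) : Δ →* MulAut (bq a j).ker := MulAut.conjNormal.comp (sq s j)

theorem cj_apply (j : ℕ) (δ : Δ) (x : (bq a j).ker) :
    ((cj a s j δ x : (bq a j).ker) : QQ (G j)) = sq s j δ * x * (sq s j δ)⁻¹ :=
  MulAut.conjNormal_apply _ _

/-- A group over `Δ`. -/
structure Stage (Δ : Type) [Group Δ] where
  W : Type
  grp : Group W
  pr : W →* Δ

/-- The tower of groups. -/
def stage : ℕ → Stage Δ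
  | 0 => ⟨Δ, inferInstance, MonoidHom.id Δ⟩
  | j + 1 =>
    let _ := (stage j).grp
    ⟨EG ((cj a s j).comp (stage j).pr) (m j + 3), inferInstance,
      (stage j).pr.comp SemidirectProduct.rightHom⟩

instance (j : ℕ) : Group (stage a s m j).W := (stage a s m j).grp

/-- The projection. -/
def pp (j : ℕ) : (stage a s m (j + 1)).W →* (stage a s m j).W :=
  (SemidirectProduct.rightHom :
    EG ((cj a s j).comp (stage a s m j).pr) (m j + 3) →* (stage a s m j).W)

theorem pr_succ (j : ℕ) (x : (stage a s m (j + 1)).W) :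
    (stage a s m (j + 1)).pr x = (stage a s m j).pr (pp a s m j x) := rfl

/-- The inclusion. -/
def emb (j n : ℕ) : Wr (bq a j).ker n →* Wr (QQ (G j)) n where
  toFun x := ⟨fun i => (x.left i : QQ (G j)), x.right⟩
  map_one' := rfl
  map_mul' _ _ := rfl

/-- The diagonal. -/
def dg (j n : ℕ) : QQ (G j) →* Wr (QQ (G j)) n where
  toFun q := ⟨fun _ => q, 1⟩
  map_one' := rfl
  map_mul' x y := by
    apply SemidirectProduct.ext
    · rfl
    · exact (mul_one _).symm

theorem dg_conj (j n : ℕ) (q : QQ (G j)) (x : Wr (QQ (G j)) n) :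
    dg j n q * x * (dg j n q)⁻¹ = ⟨fun i => q * x.left i * q⁻¹, x.right⟩ := by
  rw [← map_inv]
  apply SemidirectProduct.ext
  · funext i
    rw [wr_mul_left, wr_mul_left]
    change q * x.left ((1 : Equiv.Perm (Fin n))⁻¹ i) * q⁻¹ = _
    rw [inv_one, Equiv.Perm.one_apply]
  · change 1 * x.right * 1 = x.right
    rw [one_mul, mul_one]

/-- The homomorphism to the wreath product. -/
def kap (j : ℕ) : (stage a s m (j + 1)).W →* Wr (QQ (G j)) (m j + 3) :=
  (SemidirectProduct.lift (emb a j (m j + 3))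
    ((dg j (m j + 3)).comp ((sq s j).comp (stage a s m j).pr)) (by
      intro w
      apply MonoidHom.ext
      intro x
      refine Eq.trans ?_ (dg_conj j (m j + 3) (sq s j ((stage a s m j).pr w))
        (emb a j (m j + 3) x)).symm
      apply SemidirectProduct.ext
      · funext i
        exact cj_apply a s j _ _
      · rfl) :
    EG ((cj a s j).comp (stage a s m j).pr) (m j + 3) →* Wr (QQ (G j)) (m j + 3))

theorem kap_apply (j : ℕ) (x : Wr (bq a j).ker (m j + 3)) (w : (stage a s m j).W) :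
    kap a s m j (⟨x, w⟩ : EG ((cj a s j).comp (stage a s m j).pr) (m j + 3)) =
      ⟨fun i => (x.left i : QQ (G j)) * sq s j ((stage a s m j).pr w), x.right⟩ := by
  have h1 : kap a s m j (⟨x, w⟩ : EG ((cj a s j).comp (stage a s m j).pr) (m j + 3)) =
      emb a j (m j + 3) x * dg j (m j + 3) (sq s j ((stage a s m j).pr w)) := rfl
  rw [h1]
  apply SemidirectProduct.ext
  · funext i
    rw [wr_mul_left]
    rfl
  · exact mul_one x.right

/-- The limit of the tower. -/
abbrev LL : Subgroup (∀ j, (stage a s m j).W) :=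
  Lim (W := fun j => (stage a s m j).W) (pp a s m)

/-- The homomorphism of the limit to the product. -/
def lamT : LL a s m →* PP G m where
  toFun x j := kap a s m j (x.1 (j + 1))
  map_one' := funext fun j => map_one (kap a s m j)
  map_mul' _ _ := funext fun j => map_mul (kap a s m j) _ _

variable (hs : ∀ j δ, a j (s j δ) = δ)

include hs in
theorem bq_sq (j : ℕ) (δ : Δ) : bq a j (sq s j δ) = δ := hs j δ

include hs in
theorem bq_kap (j : ℕ) (y : (stage a s m (j + 1)).W) (i : Fin (m j + 3)) :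
    bq a j ((kap a s m j y).left i) = (stage a s m j).pr (pp a s m j y) := by
  obtain ⟨x, w⟩ := y
  rw [kap_apply]
  change bq a j ((x.left i : QQ (G j)) * sq s j ((stage a s m j).pr w)) = _
  rw [map_mul, bq_sq a s hs, (x.left i).2, one_mul]
  rfl

theorem kap_eq_one (j : ℕ) (y : (stage a s m (j + 1)).W) (hy : kap a s m j y = 1)
    (hp : pp a s m j y = 1) : y = 1 := by
  obtain ⟨x, w⟩ := y
  have hw : w = 1 := hp
  subst hw
  rw [kap_apply] at hy
  have h1 : x = 1 := by
    apply SemidirectProduct.ext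
    · funext i
      apply Subtype.ext
      have h2 := congrArg (fun t : Wr (QQ (G j)) (m j + 3) => t.left i) hy
      change (x.left i : QQ (G j)) * sq s j ((stage a s m j).pr 1) = 1 at h2
      rw [map_one, map_one, mul_one] at h2
      exact h2
    · exact congrArg (fun t : Wr (QQ (G j)) (m j + 3) => t.right) hy
  subst h1
  rfl

theorem pr_eq (x : LL a s m) (j : ℕ) : (stage a s m j).pr (x.1 j) = x.1 0 := by
  induction j with
  | zero => rfl
  | succ j ih => rw [pr_succ, x.2 j, ih]

include hs in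
/-- The component in `Δ`. -/
theorem zero_eq (x : LL a s m) (j : ℕ) (i : Fin (m j + 3)) :
    bq a j ((lamT a s m x j).left i) = (x.1 0 : (stage a s m 0).W) := by
  have h := bq_kap a s m hs j (x.1 (j + 1)) i
  rw [x.2 j, pr_eq a s m x j] at h
  exact h

include hs in
theorem lamT_injective : Function.Injective (lamT a s m) := by
  rw [injective_iff_map_eq_one]
  intro x hx
  have h1 : ∀ j, kap a s m j (x.1 (j + 1)) = 1 := fun j => congrFun hx j
  have h2 : ∀ j, x.1 j = 1 := by
    intro j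
    induction j with
    | zero =>
      have h3 := zero_eq a s m hs x 0 0
      rw [hx] at h3
      exact h3.symm.trans (map_one (bq a 0))
    | succ j ih =>
      refine kap_eq_one a s m j _ (h1 j) ?_
      rw [x.2 j, ih]
  exact Subtype.ext (funext h2)

/-- Elements of the tower with given components. -/
def bld (ρ : Δ) (w : PP G m) (hw : ∀ j i, bq a j ((w j).left i * (sq s j ρ)⁻¹) = 1) :
    ∀ j, (stage a s m j).W
  | 0 => (ρ : Δ)
  | j + 1 => (⟨⟨fun i => ⟨(w j).left i * (sq s j ρ)⁻¹, hw j i⟩, (w j).right⟩,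
      bld ρ w hw j⟩ : EG ((cj a s j).comp (stage a s m j).pr) (m j + 3))

include hs in
theorem lamT_range (ρ : Δ) (w : PP G m) (hw : ∀ j i, bq a j ((w j).left i) = ρ) :
    w ∈ (lamT a s m).range := by
  have hw' : ∀ j i, bq a j ((w j).left i * (sq s j ρ)⁻¹) = 1 := by
    intro j i
    rw [map_mul, map_inv, hw, bq_sq a s hs, mul_inv_cancel]
  have hlim : bld a s m ρ w hw' ∈ LL a s m := fun j => rfl
  refine ⟨⟨_, hlim⟩, funext fun j => ?_⟩
  have h1 : (stage a s m j).pr (bld a s m ρ w hw' j) = ρ :=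
    pr_eq a s m ⟨_, hlim⟩ j
  change kap a s m j (⟨⟨fun i => ⟨(w j).left i * (sq s j ρ)⁻¹, hw' j i⟩, (w j).right⟩,
      bld a s m ρ w hw' j⟩ : EG ((cj a s j).comp (stage a s m j).pr) (m j + 3)) = w j
  rw [kap_apply, h1]
  apply SemidirectProduct.ext
  · funext i
    exact inv_mul_cancel_right _ _
  · rfl

end stage

open Pool.Agent.TH377.IG in
/-- **Main theorem**, regular form. -/
theorem reg_main (K : Type) [Field K] (F₁ : Type) [Field F₁] [Algebra K F₁]
    [FiniteDimensional K F₁] [IsGalois K F₁]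
    (Γ : Type) [Group Γ] [TopologicalSpace Γ] [IsTopologicalGroup Γ] [CompactSpace Γ]
    [TotallyDisconnectedSpace Γ] [SecondCountableTopology Γ]
    (α : Γ →* (F₁ ≃ₐ[K] F₁)) (hα : Continuous α) (sec : (F₁ ≃ₐ[K] F₁) →* Γ)
    (hsec : ∀ ρ, α (sec ρ) = ρ) :
    ∃ (F : Type) (_ : Field F) (_ : Algebra (RatFunc K) F) (_ : Algebra F₁ F) (_ : Algebra K F)
      (_ : IsScalarTower K (RatFunc K) F) (_ : IsScalarTower K F₁ F)
      (_ : Algebra.IsSeparable (RatFunc K) F) (θ : Γ ≃ₜ* (F ≃ₐ[RatFunc K] F)),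
      (∀ (g : Γ) (x : F₁), θ g (algebraMap F₁ F x) = algebraMap F₁ F (α g x)) ∧
      ∀ y : F, IsAlgebraic F₁ y → y ∈ Set.range (algebraMap F₁ F) := by
  have hd : DiscreteTopology (F₁ ≃ₐ[K] F₁) := krullTopology_discreteTopology_of_finiteDimensional K F₁
  have hker : IsOpen (α.ker : Set Γ) := (isOpen_discrete ({1} : Set (F₁ ≃ₐ[K] F₁))).preimage hα
  obtain ⟨U, hUn, hUo, hle, hUV, hU⟩ := exists_chain_le Γ α.ker inferInstance hker
  have hfin : ∀ j, Finite (Γ ⧸ U j) := fun j =>
    Subgroup.quotient_finite_of_isOpen (U j) (hUo j)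
  let a : ∀ j, (Γ ⧸ U j) →* (F₁ ≃ₐ[K] F₁) := fun j =>
    QuotientGroup.lift (U j) α fun x hx => hUV j hx
  have ha : ∀ j (g : Γ), a j (g : Γ ⧸ U j) = α g := fun j g => rfl
  let s : ∀ j, (F₁ ≃ₐ[K] F₁) →* (Γ ⧸ U j) := fun j => (QuotientGroup.mk' (U j)).comp sec
  have hs : ∀ j δ, a j (s j δ) = δ := fun j δ => hsec δ
  let m : ℕ → ℕ := fun j => ((3 * Nat.card (bq a j).ker + 2).factorial) ^ 3
  have hstep : ∀ j, WStep (pp a s m j) := fun j =>
    Or.inl ⟨(bq a j).ker, inferInstance, inferInstance, (cj a s j).comp (stage a s m j).pr, m j + 3,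
      MulEquiv.refl _, Nat.le_add_right _ _, fun _ => rfl⟩
  obtain ⟨L, i1, i2, i3, i4, i5, i6, i7, γ, hγo, hγ, hreg⟩ :=
    tower_regular_all K F₁ (fun j => (stage a s m j).W) (pp a s m) hstep
      (MulEquiv.refl (F₁ ≃ₐ[K] F₁))
  let A : Subgroup (PP (fun j => Γ ⧸ U j) m) := (lamT a s m).range
  let e : (L ≃ₐ[RatFunc K] L) ≃* A := γ.trans (MonoidHom.ofInjective (lamT_injective a s m hs))
  have he : ∀ t, (e t : PP (fun j => Γ ⧸ U j) m) = lamT a s m (γ t) := fun t => rfl
  obtain ⟨H, θ, hH, hθ⟩ := realize' (K := RatFunc K) (L := L) hUo hle hU A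
    (fun w hw => lamT_range a s m hs 1 w fun j i => by
      rw [bq_apply, hw j i, map_one])
    (fun g => lamT_range a s m hs (α g) _ fun j i => ha j g) e (by
      intro j
      let ε : (L ≃ₐ[RatFunc K] L) →* Wr (QQ (Γ ⧸ U j)) (m j + 3) :=
        (Pi.evalMonoidHom (fun j => Wr (QQ (Γ ⧸ U j)) (m j + 3)) j).comp
          ((lamT a s m).comp γ.toMonoidHom)
      let ζ : (L ≃ₐ[RatFunc K] L) →* (stage a s m (j + 1)).W :=
        (Pi.evalMonoidHom (fun j => (stage a s m j).W) (j + 1)).comp
          ((LL a s m).subtype.comp γ.toMonoidHom)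
      have h1 : IsOpen (ζ.ker : Set (L ≃ₐ[RatFunc K] L)) := hγo (j + 1)
      have h2 : ζ.ker ≤ ε.ker := by
        intro t ht
        have h3 : (γ t).1 (j + 1) = 1 := ht
        change kap a s m j ((γ t).1 (j + 1)) = 1
        rw [h3, map_one]
      exact Subgroup.isOpen_mono h2 h1)
  have hact : ∀ (t : L ≃ₐ[RatFunc K] L) (x : F₁), t (algebraMap F₁ L x) =
      algebraMap F₁ L (a 0 (at0 (e t : PP (fun j => Γ ⧸ U j) m) 0).right x) := by
    intro t x
    have h1 : a 0 (at0 (e t : PP (fun j => Γ ⧸ U j) m) 0).right =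
        ((γ t).1 0 : (stage a s m 0).W) := zero_eq a s m hs (γ t) 0 0
    rw [hγ t x, h1]
    rfl
  have hmem : ∀ x : F₁, algebraMap F₁ L x ∈ fixedField H := by
    intro x
    rw [mem_fixedField_iff]
    intro h hh
    rw [hact, hH h hh 0, map_one]
    rfl
  let ι : F₁ →+* fixedField H := (algebraMap F₁ L).codRestrict (fixedField H) hmem
  let _ : Algebra F₁ (fixedField H) := ι.toAlgebra
  have hι : ∀ x, ((algebraMap F₁ (fixedField H) x : fixedField H) : L) = algebraMap F₁ L x :=
    fun x => rfl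
  refine ⟨fixedField H, inferInstance, (fixedField H).algebra', inferInstance,
    (fixedField H).algebra', inferInstance, ?_, ?_, θ, ?_, ?_⟩
  · refine IsScalarTower.of_algebraMap_eq fun x => Subtype.ext ?_
    exact IsScalarTower.algebraMap_apply K F₁ L x
  · exact Algebra.isSeparable_tower_bot_of_isSeparable (RatFunc K) (fixedField H) L
  · intro g x
    obtain ⟨t, ht1, ht2⟩ := hθ g
    apply Subtype.ext
    rw [ht1]
    change t (algebraMap F₁ L x) = algebraMap F₁ L (α g x)
    rw [hact, ht2 0]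
    rfl
  · intro y hy
    have h1 : IsAlgebraic F₁ (y : L) := by
      have : IsScalarTower F₁ (fixedField H) L := IsScalarTower.of_algebraMap_eq fun x => (hι x).symm
      exact (isAlgebraic_algebraMap_iff (FaithfulSMul.algebraMap_injective (fixedField H) L)).2 hy
    obtain ⟨x, hx⟩ := hreg _ h1
    exact ⟨x, Subtype.ext hx⟩

end Pool.Agent.U301.PA
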