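import Pool.Agent.U301.PA.Loc

/-!
# The automorphism group of every algebraic extension is profinite
-/

set_option autoImplicit false

namespace Pool.Agent.U301.PA

open Topology IntermediateField Polynomial Filter

variable {K F : Type*} [Field K] [Field F] [Algebra K F] [Algebra.IsAlgebraic K F]

theorem exists_value (W : Ultrafilter (F ≃ₐ[K] F)) (x : F) : ∃ y : F, ∀ᶠ s : F ≃ₐ[K] F in (W : Filter (F ≃ₐ[K] F)), s x = y := by
  have h1 : ∀ᶠ s : F ≃ₐ[K] F in (W : Filter (F ≃ₐ[K] F)), s x ∈ (minpoly K x).rootSet F := by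
    refine Eventually.of_forall fun s => ?_
    have hx : IsIntegral K x := Algebra.IsIntegral.isIntegral x
    rw [mem_rootSet]
    refine ⟨minpoly.ne_zero hx, ?_⟩
    rw [← AlgEquiv.coe_toAlgHom, aeval_algHom_apply, minpoly.aeval, map_zero]
  have h2 : ((minpoly K x).rootSet F).Finite := rootSet_finite _ _
  have h3 : (fun s : F ≃ₐ[K] F => s x) ⁻¹' ((minpoly K x).rootSet F) ∈ (W : Filter _) := h1
  rw [← Set.biUnion_preimage_singleton] at h3
  obtain ⟨y, -, hy⟩ := (Ultrafilter.finite_biUnion_mem_iff h2).1 (Ultrafilter.mem_coe.1 h3)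
  exact ⟨y, hy⟩

theorem compact_aut_all : CompactSpace (F ≃ₐ[K] F) := by
  refine ⟨isCompact_iff_ultrafilter_le_nhds.2 fun W _ => ?_⟩
  choose f hf using exists_value W
  let φ : F →ₐ[K] F :=
    { toFun := f
      map_one' := by
        obtain ⟨s, hs⟩ := (hf 1).exists
        rw [← hs, map_one]
      map_zero' := by
        obtain ⟨s, hs⟩ := (hf 0).exists
        rw [← hs, map_zero]
      map_add' := fun x y => by
        obtain ⟨s, ⟨h1, h2⟩, h3⟩ := (((hf x).and (hf y)).and (hf (x + y))).exists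
        rw [← h1, ← h2, ← h3, map_add]
      map_mul' := fun x y => by
        obtain ⟨s, ⟨h1, h2⟩, h3⟩ := (((hf x).and (hf y)).and (hf (x * y))).exists
        rw [← h1, ← h2, ← h3, map_mul]
      commutes' := fun r => by
        obtain ⟨s, hs⟩ := (hf (algebraMap K F r)).exists
        rw [← hs, s.commutes] }
  let g : F ≃ₐ[K] F := AlgEquiv.ofBijective φ (Algebra.IsAlgebraic.algHom_bijective φ)
  have hg : ∀ x, g x = f x := fun _ => rfl
  refine ⟨g, Set.mem_univ _, ?_⟩
  intro V hV
  have hV1 : (fun s => g * s) ⁻¹' V ∈ 𝓝 (1 : F ≃ₐ[K] F) := by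
    apply (continuous_const_mul g).continuousAt.preimage_mem_nhds
    rw [mul_one]
    exact hV
  obtain ⟨E, hE, hEV⟩ := (krullTopology_mem_nhds_one_iff _ _ _).1 hV1
  let b := Module.finBasis K E
  have h1 : ∀ᶠ s in (W : Filter (F ≃ₐ[K] F)), ∀ i, s (b i : F) = f (b i : F) :=
    eventually_all.2 fun i => hf _
  filter_upwards [h1] with s hs
  have h2 : g⁻¹ * s ∈ (E.fixingSubgroup : Set (F ≃ₐ[K] F)) := by
    change g⁻¹ * s ∈ E.fixingSubgroup
    rw [IntermediateField.mem_fixingSubgroup_iff]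
    have h3 : ((g⁻¹ * s : F ≃ₐ[K] F) : F →ₐ[K] F).toLinearMap.comp E.val.toLinearMap =
        E.val.toLinearMap := by
      refine b.ext fun i => ?_
      change g.symm (s (b i : F)) = (b i : F)
      rw [hs i, ← hg, g.symm_apply_apply]
    intro x hx
    exact LinearMap.congr_fun h3 ⟨x, hx⟩
  have h3 : g * (g⁻¹ * s) ∈ V := hEV h2
  rwa [mul_inv_cancel_left] at h3

end Pool.Agent.U301.PA
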