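import Pool.Agent.U301.PB.Lim
import Pool.Agent.U301.PB.Cpt
import Pool.Agent.TH377.IG.HilbFin

/-!
# Embedding problems with profinite groups over Hilbertian fields
-/

set_option autoImplicit false

namespace Pool.Agent.U301.PA

open Pool.Agent.H391R2 Pool.Agent.H391R2.T4 Topology IntermediateField
open Pool.Agent.TH377.IG (FPI)

section fpi

variable {Δ : Type} [Group Δ] {G : ℕ → Type} [∀ j, Group (G j)] (a : ∀ j, G j →* Δ) (m : ℕ → ℕ)

/-- The homomorphism `Q j → Δ`. -/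
def bq (j : ℕ) : QQ (G j) →* Δ := (a j).comp SemidirectProduct.rightHom

theorem bq_apply (j : ℕ) (q : QQ (G j)) : bq a j q = a j q.right := rfl

/-- The homomorphism of the fibre product to the direct product. -/
def lam : FPI (fun j => symProj (bq a j) (m j + 3)) →* PP G m where
  toFun p j := ((p.1.1 j : SymEP (bq a j) (m j + 3)) : Wr (QQ (G j)) (m j + 3) × Δ).1
  map_one' := rfl
  map_mul' _ _ := rfl

theorem lam_apply (p : FPI (fun j => symProj (bq a j) (m j + 3))) (j : ℕ) :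
    lam a m p j = ((p.1.1 j : SymEP (bq a j) (m j + 3)) : Wr (QQ (G j)) (m j + 3) × Δ).1 := rfl

/-- The component in `Δ`. -/
theorem snd_eq (p : FPI (fun j => symProj (bq a j) (m j + 3))) (j : ℕ) :
    p.1.2 = a j ((lam a m p j).left 0).right := by
  have h1 := p.2 j
  have h2 := (p.1.1 j).2 0
  rw [← h1]
  exact h2.symm

theorem lam_eq_one (p : FPI (fun j => symProj (bq a j) (m j + 3))) (j : ℕ) :
    lam a m p j = 1 ↔ p.1.1 j = 1 := by
  constructor
  · intro h
    apply Subtype.ext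
    apply Prod.ext
    · exact h
    · have h1 := (p.1.1 j).2 0
      have h2 : ((p.1.1 j : SymEP (bq a j) (m j + 3)) : Wr (QQ (G j)) (m j + 3) × Δ).1 = 1 := h
      rw [h2] at h1
      rw [← h1]
      exact map_one (bq a j)
  · intro h
    rw [lam_apply, h]
    rfl

theorem lam_injective : Function.Injective (lam a m) := by
  rw [injective_iff_map_eq_one]
  intro p hp
  have h1 : ∀ j, lam a m p j = 1 := fun j => congrFun hp j
  apply Subtype.ext
  apply Prod.ext
  · funext j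
    exact (lam_eq_one a m p j).1 (h1 j)
  · rw [snd_eq a m p 0, h1 0]
    exact map_one (a 0)

theorem lam_rich : Rich (G := G) (m := m) (lam a m).range := by
  intro w hw
  refine ⟨⟨(fun j => ⟨(w j, 1), fun i => ?_⟩, 1), fun j => rfl⟩, rfl⟩
  rw [bq_apply, hw j i, map_one]

theorem lam_const (g : ∀ j, G j) (δ : Δ) (h : ∀ j, a j (g j) = δ) :
    (fun j => (⟨fun _ => ⟨1, g j⟩, 1⟩ : Wr (QQ (G j)) (m j + 3)) : PP G m) ∈ (lam a m).range :=
  ⟨⟨(fun j => ⟨(⟨fun _ => ⟨1, g j⟩, 1⟩, δ), fun _ => h j⟩, δ), fun _ => rfl⟩, rfl⟩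

end fpi

section chain

variable (Γ : Type) [Group Γ] [TopologicalSpace Γ] [IsTopologicalGroup Γ] [CompactSpace Γ]
  [TotallyDisconnectedSpace Γ]

/-- A chain of open normal subgroups inside a given one. -/
theorem exists_chain_le [FirstCountableTopology Γ] (V : Subgroup Γ) (hn : V.Normal)
    (hV : IsOpen (V : Set Γ)) :
    ∃ U : ℕ → Subgroup Γ, (∀ j, (U j).Normal) ∧ (∀ j, IsOpen (U j : Set Γ)) ∧
      (∀ j, U (j + 1) ≤ U j) ∧ (∀ j, U j ≤ V) ∧
      ∀ W ∈ 𝓝 (1 : Γ), ∃ j, (U j : Set Γ) ⊆ W := by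
  obtain ⟨U, h1, h2, h3, h4⟩ := exists_chain (Γ := Γ)
  refine ⟨fun j => U j ⊓ V, fun j => ?_, fun j => (h2 j).inter hV,
    fun j => inf_le_inf_right V (h3 j), fun j => inf_le_right, fun W hW => ?_⟩
  · have := h1 j
    exact Subgroup.normal_inf_normal _ _
  · obtain ⟨j, hj⟩ := h4 W hW
    exact ⟨j, fun x hx => hj hx.1⟩

end chain

/-- **Main theorem.** -/
theorem hilb_main {K : Type} [Field K] (hK : HilbField K) (F₁ : Type) [Field F₁] [Algebra K F₁]
    [FiniteDimensional K F₁] [IsGalois K F₁]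
    (Γ : Type) [Group Γ] [TopologicalSpace Γ] [IsTopologicalGroup Γ] [CompactSpace Γ]
    [TotallyDisconnectedSpace Γ] [SecondCountableTopology Γ]
    (α : Γ →* (F₁ ≃ₐ[K] F₁)) (hα : Continuous α) (hw : WeakSol K F₁ Γ α) :
    ∃ (F : Type) (_ : Field F) (_ : Algebra K F) (_ : Algebra F₁ F) (_ : IsScalarTower K F₁ F)
      (_ : Algebra.IsSeparable K F) (θ : Γ ≃ₜ* (F ≃ₐ[K] F)),
      ∀ (g : Γ) (x : F₁), θ g (algebraMap F₁ F x) = algebraMap F₁ F (α g x) := by
  have hd : DiscreteTopology (F₁ ≃ₐ[K] F₁) := krullTopology_discreteTopology_of_finiteDimensional K F₁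
  have hker : IsOpen (α.ker : Set Γ) := (isOpen_discrete ({1} : Set (F₁ ≃ₐ[K] F₁))).preimage hα
  obtain ⟨U, hUn, hUo, hle, hUV, hU⟩ := exists_chain_le Γ α.ker inferInstance hker
  have hfin : ∀ j, Finite (Γ ⧸ U j) := fun j =>
    Subgroup.quotient_finite_of_isOpen (U j) (hUo j)
  let a : ∀ j, (Γ ⧸ U j) →* (F₁ ≃ₐ[K] F₁) := fun j =>
    QuotientGroup.lift (U j) α fun x hx => hUV j hx
  have ha : ∀ j (g : Γ), a j (g : Γ ⧸ U j) = α g := fun j g => rfl
  have hw' : ∀ j, WeakSol K F₁ (QQ (Γ ⧸ U j)) (bq a j) := by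
    intro j
    obtain ⟨L', i1, i2, i3, i4, i5, i6, s, hs⟩ := hw
    exact ⟨L', i1, i2, i3, i4, i5, i6,
      (SemidirectProduct.inr.comp (QuotientGroup.mk' (U j))).comp s, fun ρ => hs ρ⟩
  let m : ℕ → ℕ := fun j => ((3 * Nat.card (bq a j).ker + 2).factorial) ^ 3
  obtain ⟨L, i1, i2, i3, i4, i5, γ, hγo, hγ⟩ := Pool.Agent.TH377.IG.inf_hilb_sym hK F₁ ℕ
    (fun j => QQ (Γ ⧸ U j)) (fun j => bq a j) hw' (fun j => m j + 3) (fun j => Nat.le_add_right _ _)
  let A : Subgroup (PP (fun j => Γ ⧸ U j) m) := (lam a m).range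
  let e : (L ≃ₐ[K] L) ≃* A := γ.trans (MonoidHom.ofInjective (lam_injective a m))
  have he : ∀ s, (e s : PP (fun j => Γ ⧸ U j) m) = lam a m (γ s) := fun s => rfl
  obtain ⟨H, θ, hH, hθ⟩ := realize' (K := K) (L := L) hUo hle hU A (lam_rich a m)
    (fun g => lam_const a m (fun j => (g : Γ ⧸ U j)) (α g) fun j => ha j g) e (by
      intro j
      have : {s : L ≃ₐ[K] L | (e s : PP (fun j => Γ ⧸ U j) m) j = 1} =
          {s | (γ s).1.1 j = 1} := by
        ext s
        exact lam_eq_one a m (γ s) j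
      rw [this]
      exact hγo j)
  have hact : ∀ (s : L ≃ₐ[K] L) (x : F₁), s (algebraMap F₁ L x) =
      algebraMap F₁ L (a 0 (at0 (e s : PP (fun j => Γ ⧸ U j) m) 0).right x) := by
    intro s x
    rw [hγ s x, snd_eq a m (γ s) 0]
    rfl
  have hmem : ∀ x : F₁, algebraMap F₁ L x ∈ fixedField H := by
    intro x
    rw [mem_fixedField_iff]
    intro h hh
    rw [hact, hH h hh 0, map_one]
    rfl
  let ι : F₁ →+* fixedField H := (algebraMap F₁ L).codRestrict (fixedField H) hmem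
  let _ : Algebra F₁ (fixedField H) := ι.toAlgebra
  refine ⟨fixedField H, inferInstance, (fixedField H).algebra', inferInstance, ?_, ?_, θ, ?_⟩
  · refine IsScalarTower.of_algebraMap_eq fun x => Subtype.ext ?_
    exact IsScalarTower.algebraMap_apply K F₁ L x
  · exact Algebra.isSeparable_tower_bot_of_isSeparable K (fixedField H) L
  · intro g x
    obtain ⟨s, hs1, hs2⟩ := hθ g
    apply Subtype.ext
    rw [hs1]
    change s (algebraMap F₁ L x) = algebraMap F₁ L (α g x)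
    rw [hact, hs2 0]
    rfl

end Pool.Agent.U301.PA
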