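import Pool.Agent.U301.PA.Gal
import Pool.Agent.U301.PA.Grp

/-!
# Automorphism groups of fixed fields, and normalizers in subgroups of products
-/

set_option autoImplicit false

namespace Pool.Agent.U301.PA

open IntermediateField Topology

section gal

variable {K L : Type*} [Field K] [Field L] [Algebra K L] [IsGalois K L]

/-- **The automorphism group of a fixed field**, with the isomorphism. -/
theorem aut_iso' (H N : Subgroup Gal(L/K)) (hH : IsClosed (H : Set Gal(L/K)))
    (hNc : IsClosed (N : Set Gal(L/K))) (hN : ∀ s, s ∈ N ↔ ∀ h, h ∈ H ↔ s * h * s⁻¹ ∈ H)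
    {Γ : Type*} [Group Γ] [TopologicalSpace Γ] [IsTopologicalGroup Γ] [T2Space Γ]
    (φ : N →* Γ) (hφc : Continuous φ) (hφs : Function.Surjective φ)
    (hφk : ∀ s : N, φ s = 1 ↔ (s : Gal(L/K)) ∈ H) :
    ∃ θ : Γ ≃ₜ* (fixedField H ≃ₐ[K] fixedField H), ∀ s : N, θ (φ s) = res H N hN s := by
  have : CompactSpace N := isCompact_iff_compactSpace.1 hNc.isCompact
  have hT : T2Space (fixedField H ≃ₐ[K] fixedField H) := krullTopology_t2
  have hker : φ.ker ≤ (res H N hN).ker := by
    intro s hs
    rw [MonoidHom.mem_ker] at hs ⊢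
    rw [res_eq_one H N hN hH]
    exact (hφk s).1 hs
  let ψ : Γ →* (fixedField H ≃ₐ[K] fixedField H) := φ.liftOfSurjective hφs ⟨res H N hN, hker⟩
  have hψ : ∀ s, ψ (φ s) = res H N hN s := fun s =>
    MonoidHom.liftOfRightInverse_comp_apply φ _ (Function.rightInverse_surjInv hφs)
      ⟨res H N hN, hker⟩ s
  have hq : IsQuotientMap φ := hφc.isClosedMap.isQuotientMap hφc hφs
  have hψc : Continuous ψ := by
    rw [hq.continuous_iff]
    have : (ψ ∘ φ) = res H N hN := funext hψ
    rw [this]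
    exact res_continuous H N hN
  have : CompactSpace Γ := by
    rw [← isCompact_univ_iff, ← hφs.range_eq]
    exact isCompact_range hφc
  have hinj : Function.Injective ψ := by
    rw [injective_iff_map_eq_one]
    intro g hg
    obtain ⟨s, rfl⟩ := hφs g
    rw [hψ, res_eq_one H N hN hH] at hg
    exact (hφk s).2 hg
  have hsurj : Function.Surjective ψ := by
    intro t
    obtain ⟨s, rfl⟩ := res_surjective H N hN hH t
    exact ⟨φ s, hψ s⟩
  let e : Γ ≃* (fixedField H ≃ₐ[K] fixedField H) := MulEquiv.ofBijective ψ ⟨hinj, hsurj⟩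
  have he : Continuous e.toEquiv := hψc
  exact ⟨{ e with
    continuous_toFun := hψc
    continuous_invFun := (he.homeoOfEquivCompactToT2).continuous_invFun }, hψ⟩

end gal

open Pool.Agent.H391R2 Function

variable {G : ℕ → Type} [∀ j, Group (G j)] (π : ∀ j, G (j + 1) →* G j) {m : ℕ → ℕ}

theorem put_right (q : ∀ j, QQ (G j)) (hq : ∀ j, (q j).right = 1) (j : ℕ) (i : Fin (m j + 3)) :
    ((put m q j).left i).right = 1 := by
  change ((Pi.mulSingle 0 (q j) : Fin (m j + 3) → QQ (G j)) i).right = 1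
  by_cases h : i = 0
  · subst h
    rw [Pi.mulSingle_eq_same (M := fun _ : Fin (m j + 3) => QQ (G j))]
    exact hq j
  · rw [Pi.mulSingle_eq_of_ne (M := fun _ : Fin (m j + 3) => QQ (G j)) h]
    rfl

theorem normalizer_fix' {w : PP G m}
    (h : ∀ g, g ∈ HH π m → (∀ j i, ((g j).left i).right = 1) → w * g * w⁻¹ ∈ HH π m) (j : ℕ) :
    (w j).right 0 = 0 := by
  classical
  by_contra hne
  set c : Fin (m j + 3) := (w j).right⁻¹ 0 with hc
  have hc0 : c ≠ 0 := by
    intro h0
    apply hne
    rw [hc, Equiv.Perm.inv_eq_iff_eq] at h0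
    exact h0.symm
  have e0 : ((0 : Fin (m j + 3)) : ℕ) = 0 := rfl
  have e1 : ((1 : Fin (m j + 3)) : ℕ) = 1 :=
    (Nat.mod_eq_of_lt (by omega : 1 < m j + 3) : 1 % (m j + 3) = 1)
  have e2 : ((2 : Fin (m j + 3)) : ℕ) = 2 :=
    (Nat.mod_eq_of_lt (by omega : 2 < m j + 3) : 2 % (m j + 3) = 2)
  obtain ⟨d, hd0, hdc⟩ : ∃ d : Fin (m j + 3), d ≠ 0 ∧ d ≠ c := by
    by_cases h1 : c = 1
    · refine ⟨2, ?_, ?_⟩
      · intro h2
        rw [Fin.ext_iff, e2, e0] at h2
        omega
      · rw [h1]
        intro h2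
        rw [Fin.ext_iff, e2, e1] at h2
        omega
    · refine ⟨1, ?_, Ne.symm h1⟩
      intro h2
      rw [Fin.ext_iff, e1, e0] at h2
      omega
  let g : PP G m := Pi.mulSingle j ⟨1, Equiv.swap c d⟩
  have hg : g ∈ HH π m := by
    rw [mem_HH]
    have h1 : ∀ i, (g i).right 0 = 0 := by
      intro i
      by_cases hij : i = j
      · subst hij
        have : g i = ⟨1, Equiv.swap c d⟩ := Pi.mulSingle_eq_same _ _
        rw [this]
        exact Equiv.swap_apply_of_ne_of_ne (Ne.symm hc0) (Ne.symm hd0)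
      · have : g i = 1 := Pi.mulSingle_eq_of_ne hij _
        rw [this]
        rfl
    have h2 : at0 g = fun _ => 1 := by
      funext i
      by_cases hij : i = j
      · subst hij
        have : g i = ⟨1, Equiv.swap c d⟩ := Pi.mulSingle_eq_same _ _
        change (g i).left 0 = 1
        rw [this]
        rfl
      · have : g i = 1 := Pi.mulSingle_eq_of_ne hij _
        change (g i).left 0 = 1
        rw [this]
        rfl
    exact ⟨⟨h1, by rw [h2]; exact comp_one π⟩, fun i => by rw [h2]; rfl⟩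
  have hgr : ∀ i k, ((g i).left k).right = 1 := by
    intro i k
    by_cases hij : i = j
    · subst hij
      have : g i = ⟨1, Equiv.swap c d⟩ := Pi.mulSingle_eq_same _ _
      rw [this]
      rfl
    · have : g i = 1 := Pi.mulSingle_eq_of_ne hij _
      rw [this]
      rfl
  have h3 := h g hg hgr
  rw [mem_HH] at h3
  have h4 := h3.1.1 j
  have h5 : (w j).right (Equiv.swap c d c) = 0 := by
    have : g j = ⟨1, Equiv.swap c d⟩ := Pi.mulSingle_eq_same _ _
    have h6 : ((w * g * w⁻¹) j).right 0 = (w j).right ((g j).right ((w j).right⁻¹ 0)) := rfl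
    rw [h6, this] at h4
    exact h4
  rw [Equiv.swap_apply_left] at h5
  apply hdc
  rw [hc]
  rw [← h5]
  simp

theorem normalizer_comp' {w : PP G m}
    (h : ∀ g, g ∈ HH π m → (∀ j i, ((g j).left i).right = 1) → w * g * w⁻¹ ∈ HH π m) :
    Comp π (at0 w) := by
  classical
  have hfix := normalizer_fix' π h
  have key : ∀ (v : ∀ j, G j → T3) (j : ℕ) (x : G (j + 1)),
      ((at0 w (j + 1)).left x).1 * v j (π j ((at0 w (j + 1)).right⁻¹ * x)) *
          (((at0 w (j + 1)).left x).1)⁻¹ =
        ((at0 w j).left (π j x)).2 * v j ((at0 w j).right⁻¹ * π j x) *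
          (((at0 w j).left (π j x)).2)⁻¹ := by
    intro v j x
    have h1 := h _ (bas_mem π (m := m) v) (put_right _ fun _ => rfl)
    rw [mem_HH] at h1
    have h2 := h1.1.2.2 j x
    have h3 : ∀ i, at0 (w * put m (fun j => (⟨bas π v j, 1⟩ : QQ (G j))) * w⁻¹) i =
        at0 w i * ⟨bas π v i, 1⟩ * (at0 w i)⁻¹ := by
      intro i
      rw [at0_mul, at0_mul hfix, at0_put, at0_inv hfix]
      intro k
      change (w k).right 0 = 0
      exact hfix k
    rw [h3, h3, conj_bas (at0 w) (bas π v), conj_bas (at0 w) (bas π v)] at h2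
    simp only [Prod.fst_mul, Prod.snd_mul, Prod.fst_inv, Prod.snd_inv, bas_fst, bas_snd] at h2
    exact h2
  have h1 : ∀ j, π j (at0 w (j + 1)).right = (at0 w j).right := by
    intro j
    by_contra hne
    let z : G j := π j ((at0 w (j + 1)).right⁻¹ * 1)
    let c : T3 := Equiv.swap 0 1
    have hc : c ≠ 1 := by decide
    let v : ∀ i, G i → T3 := Function.update (fun _ _ => 1) j (Pi.mulSingle z c)
    have h2 := key v j 1
    have hv : v j = Pi.mulSingle z c := Function.update_self _ _ _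
    rw [hv] at h2
    have h3 : (Pi.mulSingle z c : G j → T3) (π j ((at0 w (j + 1)).right⁻¹ * 1)) = c :=
      Pi.mulSingle_eq_same _ _
    have h4 : (Pi.mulSingle z c : G j → T3) ((at0 w j).right⁻¹ * π j 1) = 1 := by
      apply Pi.mulSingle_eq_of_ne
      intro h5
      apply hne
      simp only [z, mul_one, map_one, map_inv, inv_inj] at h5
      exact h5.symm
    rw [h3, h4, mul_one, mul_inv_cancel] at h2
    apply hc
    have h6 := congrArg (fun t => (((at0 w (j + 1)).left 1).1)⁻¹ * t *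
      ((at0 w (j + 1)).left 1).1) h2
    simpa [mul_assoc] using h6
  refine ⟨h1, fun j x => ?_⟩
  have h2 : ∀ c : T3, (((at0 w j).left (π j x)).2⁻¹ * ((at0 w (j + 1)).left x).1) * c =
      c * (((at0 w j).left (π j x)).2⁻¹ * ((at0 w (j + 1)).left x).1) := by
    intro c
    have h3 := key (fun _ _ => c) j x
    have h4 := congrArg (fun t => (((at0 w j).left (π j x)).2)⁻¹ * t *
      ((at0 w (j + 1)).left x).1) h3
    simpa [mul_assoc] using h4
  have h5 := T3_center _ h2
  have h6 := inv_mul_eq_one.1 h5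
  exact h6.symm


/-- `A` contains all elements whose components in the groups `G j` are trivial. -/
def Rich (A : Subgroup (PP G m)) : Prop :=
  ∀ w : PP G m, (∀ j i, ((w j).left i).right = 1) → w ∈ A

/-- `DD ∩ A` is the normalizer of `HH ∩ A` in `A`. -/
theorem mem_DD_iff' {A : Subgroup (PP G m)} (hA : Rich A) (w : PP G m) :
    w ∈ DD π m ↔ ∀ g ∈ A, g ∈ HH π m ↔ w * g * w⁻¹ ∈ HH π m := by
  refine ⟨fun h g _ => (mem_DD_iff π w).1 h g, fun h => ?_⟩
  have h1 : ∀ g, g ∈ HH π m → (∀ j i, ((g j).left i).right = 1) → w * g * w⁻¹ ∈ HH π m :=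
    fun g hg hr => (h g (hA g hr)).1 hg
  exact ⟨normalizer_fix' π h1, normalizer_comp' π h1⟩

end Pool.Agent.U301.PA
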