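import Pool.Agent.U301.PB.Aut
import Pool.Agent.U301.PA.Lim

/-!
# Realization of a profinite group as the automorphism group of a fixed field, general form

`L/K` is a Galois extension whose Galois group is a subgroup `A` of the product of the groups
`Q j ≀ S_(m j + 3)` which contains all elements whose components in the groups `Γ ⧸ U j` are trivial,
and all constant elements.
-/

set_option autoImplicit false

namespace Pool.Agent.U301.PA

open Pool.Agent.H391R2 Topology IntermediateField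

variable {K L : Type*} [Field K] [Field L] [Algebra K L] [IsGalois K L]
  {Γ : Type} [Group Γ] [TopologicalSpace Γ] [IsTopologicalGroup Γ] [CompactSpace Γ]
  [TotallyDisconnectedSpace Γ] {U : ℕ → Subgroup Γ} [hUn : ∀ j, (U j).Normal]

/-- The constant element. -/
def cst (U : ℕ → Subgroup Γ) [hUn : ∀ j, (U j).Normal] (m : ℕ → ℕ) (γ : Γ) :
    PP (fun j => Γ ⧸ U j) m :=
  fun j => ⟨fun _ => ⟨1, (γ : Γ ⧸ U j)⟩, 1⟩

theorem realize' (hUo : ∀ j, IsOpen (U j : Set Γ)) (hle : ∀ j, U (j + 1) ≤ U j)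
    (hU : ∀ V ∈ 𝓝 (1 : Γ), ∃ j, (U j : Set Γ) ⊆ V) {m : ℕ → ℕ}
    (A : Subgroup (PP (fun j => Γ ⧸ U j) m)) (hA : Rich A) (hA2 : ∀ γ : Γ, cst U m γ ∈ A)
    (e : Gal(L/K) ≃* A)
    (he : ∀ j, IsOpen {s : Gal(L/K) | (e s : PP (fun j => Γ ⧸ U j) m) j = 1}) :
    ∃ (H : Subgroup Gal(L/K)) (θ : Γ ≃ₜ* (fixedField H ≃ₐ[K] fixedField H)),
      (∀ h ∈ H, ∀ j, (at0 (e h : PP (fun j => Γ ⧸ U j) m) j).right = 1) ∧
      ∀ γ, ∃ s : Gal(L/K), (∀ x : fixedField H, ((θ γ x : fixedField H) : L) = s x) ∧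
        ∀ j, (at0 (e s : PP (fun j => Γ ⧸ U j) m) j).right = (γ : Γ ⧸ U j) := by
  have hT2 : T2Space Γ := inferInstance
  let π : ∀ j, (Γ ⧸ U (j + 1)) →* (Γ ⧸ U j) := fun j =>
    QuotientGroup.map (U (j + 1)) (U j) (MonoidHom.id Γ) (hle j)
  let e' : Gal(L/K) →* PP (fun j => Γ ⧸ U j) m := A.subtype.comp e.toMonoidHom
  let ε : ∀ j, Gal(L/K) →* Wr (QQ (Γ ⧸ U j)) (m j + 3) := fun j =>
    (Pi.evalMonoidHom (fun j => Wr (QQ (Γ ⧸ U j)) (m j + 3)) j).comp e'
  have hε : ∀ j, IsOpen {s | ε j s = 1} := he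
  let H : Subgroup Gal(L/K) := (HH (G := fun j => Γ ⧸ U j) π m).comap e'
  let N : Subgroup Gal(L/K) := (DD (G := fun j => Γ ⧸ U j) π m).comap e'
  have hNc : IsClosed (N : Set Gal(L/K)) := by
    have : (N : Set Gal(L/K)) = ⋂ j, {s | (ε j s).right 0 = 0 ∧
        π j ((ε (j + 1) s).left 0).right = ((ε j s).left 0).right ∧
        ∀ x, (((ε (j + 1) s).left 0).left x).1 = (((ε j s).left 0).left (π j x)).2} := by
      ext s
      rw [Set.mem_iInter]
      exact mem_DD_pair (G := fun j => Γ ⧸ U j) π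
    rw [this]
    exact isClosed_iInter fun j => closed_pair (ε j) (ε (j + 1)) (hε j) (hε (j + 1))
      (fun a b => a.right 0 = 0 ∧ π j (b.left 0).right = (a.left 0).right ∧
        ∀ x, ((b.left 0).left x).1 = ((a.left 0).left (π j x)).2)
  have hHc : IsClosed (H : Set Gal(L/K)) := by
    have : (H : Set Gal(L/K)) = (N : Set Gal(L/K)) ∩ ⋂ j, (ε j) ⁻¹' {a | (a.left 0).right = 1} := by
      ext s
      rw [Set.mem_inter_iff, Set.mem_iInter]
      exact mem_HH (G := fun j => Γ ⧸ U j) π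
    rw [this]
    exact hNc.inter (isClosed_iInter fun j => closed_of_ker (ε j) (hε j) _)
  have hN : ∀ s, s ∈ N ↔ ∀ h, h ∈ H ↔ s * h * s⁻¹ ∈ H := by
    intro s
    have h1 : s ∈ N ↔ e' s ∈ DD (G := fun j => Γ ⧸ U j) π m := Iff.rfl
    have hc : ∀ h, e' s * e' h * (e' s)⁻¹ = e' (s * h * s⁻¹) := fun h => by
      rw [map_mul, map_mul, map_inv]
    rw [h1, mem_DD_iff' (G := fun j => Γ ⧸ U j) π hA]
    constructor
    · intro h2 h
      have h3 := h2 (e' h) (e h).2
      rw [hc h] at h3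
      exact h3
    · intro h2 g hg
      obtain ⟨h, hh⟩ := e.surjective ⟨g, hg⟩
      have hg' : e' h = g := congrArg Subtype.val hh
      rw [← hg', hc h]
      exact h2 h
  have hlift : ∀ s : N, ∃ γ : Γ, ∀ j, (γ : Γ ⧸ U j) = (at0 (e' (s : Gal(L/K))) j).right := by
    intro s
    exact exists_lift hUo hle _ fun j => s.2.2.1 j
  choose f hf using hlift
  have huniq : ∀ (s : N) (γ : Γ),
      (∀ j, (γ : Γ ⧸ U j) = (at0 (e' (s : Gal(L/K))) j).right) → f s = γ :=
    fun s γ h => eq_of_chain hU fun j => (hf s j).trans (h j).symm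
  let φ : N →* Γ :=
    { toFun := f
      map_one' := huniq 1 1 fun j => by
        have : e' ((1 : N) : Gal(L/K)) = 1 := map_one e'
        rw [this]
        rfl
      map_mul' := fun s t => huniq (s * t) (f s * f t) fun j => by
        have h1 : e' ((s * t : N) : Gal(L/K)) = e' (s : Gal(L/K)) * e' (t : Gal(L/K)) := map_mul e' _ _
        have h2 : at0 (e' (s : Gal(L/K)) * e' (t : Gal(L/K))) j =
            at0 (e' (s : Gal(L/K))) j * at0 (e' (t : Gal(L/K))) j := at0_mul s.2.1 j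
        rw [h1, h2, qq_mul_right, ← hf, ← hf]
        rfl }
  have hφ : ∀ s, φ s = f s := fun _ => rfl
  have hφc : Continuous φ := by
    refine continuous_of_continuousAt_one φ ?_
    rw [ContinuousAt, map_one]
    intro V hV
    obtain ⟨j, hj⟩ := hU V hV
    rw [Filter.mem_map]
    have h1 : IsOpen {s : N | ε j (s : Gal(L/K)) = 1} := (hε j).preimage continuous_subtype_val
    have h2 : {s : N | ε j (s : Gal(L/K)) = 1} ∈ 𝓝 (1 : N) := h1.mem_nhds (map_one (ε j))
    filter_upwards [h2] with s hs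
    apply hj
    have h3 : e' (s : Gal(L/K)) j = 1 := hs
    have h4 : ((f s : Γ) : Γ ⧸ U j) = 1 := by
      rw [hf]
      change ((e' (s : Gal(L/K)) j).left 0).right = 1
      rw [h3]
      rfl
    exact (QuotientGroup.eq_one_iff _).1 h4
  have hφs : Function.Surjective φ := by
    intro γ
    have hs : e' (e.symm ⟨cst U m γ, hA2 γ⟩) = cst U m γ := by
      change (e (e.symm ⟨cst U m γ, hA2 γ⟩) : PP (fun j => Γ ⧸ U j) m) = _
      rw [e.apply_symm_apply]
    have hmem : e.symm ⟨cst U m γ, hA2 γ⟩ ∈ N := by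
      change e' _ ∈ DD (G := fun j => Γ ⧸ U j) π m
      rw [hs]
      exact ⟨fun j => rfl, fun j => rfl, fun j x => rfl⟩
    refine ⟨⟨_, hmem⟩, huniq _ γ fun j => ?_⟩
    change _ = (at0 (e' (e.symm _)) j).right
    rw [hs]
    rfl
  have hφk : ∀ s : N, φ s = 1 ↔ (s : Gal(L/K)) ∈ H := by
    intro s
    have h1 : (s : Gal(L/K)) ∈ H ↔ e' (s : Gal(L/K)) ∈ HH (G := fun j => Γ ⧸ U j) π m := Iff.rfl
    rw [h1, mem_HH, hφ]
    constructor
    · intro h
      refine ⟨s.2, fun j => ?_⟩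
      rw [← hf, h]
      rfl
    · rintro ⟨-, h⟩
      refine huniq s 1 fun j => ?_
      rw [h j]
      rfl
  obtain ⟨θ, hθ⟩ := aut_iso' H N hHc hNc hN φ hφc hφs hφk
  refine ⟨H, θ, fun h hh j => ?_, fun γ => ?_⟩
  · have h1 : e' h ∈ HH (G := fun j => Γ ⧸ U j) π m := hh
    rw [mem_HH] at h1
    exact h1.2 j
  · obtain ⟨s, rfl⟩ := hφs γ
    refine ⟨s, fun x => ?_, fun j => (hf s j).symm⟩
    rw [hθ]
    rfl

end Pool.Agent.U301.PA
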